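import Mathlib
import Pool.Agent.H81.Refine

set_option autoImplicit false

namespace Pool.Agent.Results.MP_b12348_gt.NoFactor

open Set Pool.Agent.H81.Refine

theorem result : ∃ (n m k : ℕ) (C : Set (Fin n → ℝ)) (c : Fin m → (Fin n → ℝ)),
    Function.Injective c ∧ range c = C.extremePoints ℝ ∧ C = convexHull ℝ (range c) ∧
    ¬ IsSimplex C ∧
    ∃ (D : Set (Fin k → ℝ)) (f : (Fin k → ℝ) → (Fin n → ℝ))
      (G : Set (stdSimplex ℝ (Fin k) → ℝ)) (g : (stdSimplex ℝ (Fin k) → ℝ) → (C → ℝ)),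
      Refines C (stdSimplex ℝ (Fin k)) D f G g ∧
      ¬ ∃ (G₀ : Set (stdSimplex ℝ (Fin m) → ℝ)) (g₀ : (stdSimplex ℝ (Fin m) → ℝ) → (C → ℝ))
          (D' : Set (Fin k → ℝ)) (f' : (Fin k → ℝ) → (Fin m → ℝ))
          (G' : Set (stdSimplex ℝ (Fin k) → ℝ))
          (g' : (stdSimplex ℝ (Fin k) → ℝ) → (stdSimplex ℝ (Fin m) → ℝ)),
          Refines C (stdSimplex ℝ (Fin m)) (stdSimplex ℝ (Fin m)) (fun x => ∑ i, x i • c i) G₀ g₀ ∧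
          Refines (stdSimplex ℝ (Fin m)) (stdSimplex ℝ (Fin k)) D' f' G' g' ∧
          D = D' ∧ (∀ x ∈ D, f x = ∑ i, f' x i • c i) ∧
          G = {ω | ω ∈ G' ∧ g' ω ∈ G₀} ∧ (∀ ω ∈ G, g ω = g₀ (g' ω)) := by
  refine ⟨2, 4, 5, C, V, V_inj, ext_eq, C_eq, not_simplex, D, f, G, g, refines, ?_⟩
  rintro ⟨G₀, g₀, D', f', G', g', -, ⟨h1, h2, h3⟩, rfl, hf, -, -⟩
  have key : ∀ i : Fin 4, ∃ x ∈ D, f' x = Pi.single i 1 ∧ f x = V i := by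
    intro i
    obtain ⟨x, hx, h⟩ : Pi.single i (1 : ℝ) ∈ f' '' D := by
      rw [h1.2.2]; exact single_mem_stdSimplex ℝ i
    refine ⟨x, hx, h, ?_⟩
    rw [hf x hx, h]
    simp [Pi.single_apply]
  obtain ⟨x, hx, hx1, hx2⟩ := key 0
  obtain ⟨y, hy, hy1, hy2⟩ := key 1
  obtain ⟨ω, hω, hg⟩ : (fun z : stdSimplex ℝ (Fin 4) => z.1 0) ∈ g' '' G' := by
    rw [h2.2.2]
    refine mem_forms.2 ⟨fun z => mem_Icc_of_mem_stdSimplex z.2 0, 0, Pi.single 0 1, fun z => ?_⟩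
    simp [Pi.single_apply]
  have a1 := h3 ⟨x, hx.1⟩ hx ω hω ⟨_, single_mem_stdSimplex ℝ 0⟩ hx1.symm
  have a2 := h3 ⟨y, hy.1⟩ hy ω hω ⟨_, single_mem_stdSimplex ℝ 1⟩ hy1.symm
  have hF := h2.1 hω
  rw [hg, form_T hF] at a1 a2
  obtain ⟨p0, p1, p2, p3, p4⟩ := pre0 hx hx2
  obtain ⟨q0, q1, q2, q3, q4⟩ := pre1 hy hy2
  simp only [p0, p1, p2, p3, p4, q0, q1, q2, q3, q4] at a1 a2
  simp at a1 a2
  have := (hF.1 (e 1)).2
  have := (hF.1 (e 0)).2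
  have := (hF.1 (e 2)).1
  linarith

end Pool.Agent.Results.MP_b12348_gt.NoFactor
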